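import Pool.Agent.Lib_helper72.CP.CP8

/-!
# MP_ff1fb3_nt: small points of `ℚ(ζ, γ)`, `ζ ^ m = 1`, `γ ^ N = α`

`L = ℚ(μ_∞, α, α^{1/2}, α^{1/3}, …)` is the union of the fields `ℚ(ζ, γ)` with `ζ ^ m = 1` and
`γ ^ N = α`, `m, N ≥ 1`.  We prove the statement of Q1 for all `β` in those `ℚ(ζ, γ)` for which
every prime dividing both `m` and `N` lies in a fixed finite set.  This includes all the fields
`ℚ(γ)`, for example the field `ℚ(α^q : q ∈ ℚ)` of all real roots of a positive rational number `α`,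
and all the fields `ℚ(ζ, γ)` with `m` prime to `N`.
-/

namespace Pool.Agent.Lib_helper72.CP.Draft.CoprimeRoots

open Polynomial

/-- the field of all algebraic numbers -/
abbrev Qbar : Type := AlgebraicClosure ℚ

/-- A primitive polynomial with integer coefficients which is a rational multiple of `f ≠ 0`:
clear the denominators and divide by the content. -/
noncomputable def primitiveMultiple (f : ℚ[X]) : ℤ[X] :=
  (IsLocalization.integerNormalization (nonZeroDivisors ℤ) f).primPart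

/-- The absolute logarithmic Weil height
`h(x) = (1 / [ℚ(x) : ℚ]) log (|lc(P)| ∏_z max(1, |z|))`, where `P` is the minimal polynomial of `x`
over `ℤ` (up to sign) and `z` runs over the complex roots of `P`. -/
noncomputable def weilHeight (x : Qbar) : ℝ :=
  Real.log (|((primitiveMultiple (minpoly ℚ x)).leadingCoeff : ℝ)| *
    ((((primitiveMultiple (minpoly ℚ x)).map (Int.castRingHom ℂ)).roots).map
      (fun z => max 1 ‖z‖)).prod) / (minpoly ℚ x).natDegree

/-- `⟨α⟩_div` : the nonzero `γ` with `γ ^ n ∈ ⟨α⟩` for some `n ≥ 1` -/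
def divisionGroup (α : Qbar) : Set Qbar :=
  {γ | γ ≠ 0 ∧ ∃ n : ℕ, 0 < n ∧ ∃ k : ℤ, γ ^ n = α ^ k}

/-- Let `α` be an algebraic number, not zero and not a root of unity, and `S` a finite set of
primes.  There is `c > 0` such that `h(β) ≥ c` for all `β ∈ ℚ(ζ, γ)` outside `⟨α⟩_div ∪ {0}`, where
`ζ ^ m = 1`, `γ ^ N = α`, `m, N ≥ 1`, and every prime dividing both `m` and `N` lies in `S`. -/
theorem result (α : Qbar) (h0 : α ≠ 0) (hα : ∀ n : ℕ, 0 < n → α ^ n ≠ 1)
    (S : Set ℕ) (hS : S.Finite) :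
    ∃ c : ℝ, 0 < c ∧ ∀ m N : ℕ, 0 < m → 0 < N → (∀ q : ℕ, q.Prime → q ∣ m → q ∣ N → q ∈ S) →
      ∀ ζ γ : Qbar, ζ ^ m = 1 → γ ^ N = α → ∀ β ∈ IntermediateField.adjoin ℚ {ζ, γ},
        β ≠ 0 → β ∉ divisionGroup α → c ≤ weilHeight β := by
  have halg : Algebra.IsAlgebraic ℚ Qbar := by
    refine ⟨fun x => ?_⟩
    obtain ⟨f, hf, hfx⟩ := (AlgebraicClosure.isAlgebraic ℚ).isAlgebraic x
    refine ⟨f, hf, ?_⟩
    rw [aeval_def] at hfx ⊢
    rw [← hfx]
    congr 1
  obtain ⟨c, hc, h⟩ := CP.coprime_thm h0 hα hS.toFinset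
  exact ⟨c, hc, fun m N hm hN hmN ζ γ hζ hγ β hβ hβ0 hβD =>
    h m N hm hN (fun q hq h1 h2 => hS.mem_toFinset.2 (hmN q hq h1 h2)) ζ γ hζ hγ β hβ hβ0 hβD⟩

end Pool.Agent.Lib_helper72.CP.Draft.CoprimeRoots
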